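import Mathlib
import Pool.Agent.H410R2.ENIface3

/-! EN7b: the average number of reduced classes for which a position survives. -/

set_option autoImplicit false

open Finset

namespace Pool.Agent.H414R2.ENAvg

open Pool.Agent.H378R2

/-- the completely multiplicative function `1/n` -/
noncomputable def invHom : ℕ →* ℝ where
  toFun n := (n : ℝ)⁻¹
  map_one' := by simp
  map_mul' a b := by push_cast; rw [mul_inv]

lemma invHom_apply (n : ℕ) : invHom n = (n : ℝ)⁻¹ := rfl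

lemma sum_factored (S : Finset ℕ) (hS : ∀ p ∈ S, p.Prime) (N : Finset ℕ)
    (hN : ∀ n ∈ N, n ∈ Nat.factoredNumbers S) :
    ∑ n ∈ N, (n : ℝ)⁻¹ ≤ ∏ p ∈ S, (1 - (p : ℝ)⁻¹)⁻¹ := by
  classical
  have h := (EulerProduct.summable_and_hasSum_factoredNumbers_prod_filter_prime_geometric
    (f := invHom) (by
      intro p hp
      rw [invHom_apply, norm_inv, Real.norm_natCast]
      have h1 : (1 : ℝ) < p := by exact_mod_cast hp.one_lt
      exact inv_lt_one_of_one_lt₀ h1) S).2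
  have h1 : (∏ p ∈ S with p.Prime, (1 - invHom p)⁻¹) = ∏ p ∈ S, (1 - (p : ℝ)⁻¹)⁻¹ := by
    rw [Finset.filter_true_of_mem hS]
    exact Finset.prod_congr rfl fun p _ => by rw [invHom_apply]
  rw [h1] at h
  have h2 := sum_le_hasSum (N.subtype (fun n => n ∈ Nat.factoredNumbers S)) (fun i _ => by
    rw [invHom_apply]; positivity) h
  rw [Finset.sum_subtype_of_mem (fun n => invHom n) hN] at h2
  exact h2

lemma log_le_sum (Y : ℕ) : Real.log Y ≤ ∑ n ∈ Finset.Icc 1 Y, (n : ℝ)⁻¹ := by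
  rcases Nat.eq_zero_or_pos Y with h | h
  · subst h; simp
  have h1 := log_add_one_le_harmonic Y
  rw [harmonic_eq_sum_Icc] at h1
  push_cast at h1
  have h2 : Real.log Y ≤ Real.log (Y + 1) :=
    Real.log_le_log (by exact_mod_cast h) (by linarith)
  linarith

/-- sum of `1/(p(p-1))` over a finite set of primes is at most 1 -/
lemma sum_pp (S : Finset ℕ) (hS : ∀ p ∈ S, p.Prime) :
    ∑ p ∈ S, ((1 : ℝ) / ((p : ℝ) - 1) - 1 / p) ≤ 1 := by
  -- compare with the telescoping sum over 2 ≤ k ≤ N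
  obtain ⟨N, hN⟩ : ∃ N : ℕ, ∀ p ∈ S, p < N + 2 := by
    refine ⟨S.sup id, fun p hp => ?_⟩
    have := Finset.le_sup (f := id) hp
    simp at this
    omega
  have hsub : S ⊆ Finset.Ico 2 (N + 2) := by
    intro p hp
    rw [Finset.mem_Ico]
    exact ⟨(hS p hp).two_le, hN p hp⟩
  have hnn : ∀ k ∈ Finset.Ico 2 (N + 2), (0 : ℝ) ≤ 1 / ((k : ℝ) - 1) - 1 / k := by
    intro k hk
    rw [Finset.mem_Ico] at hk
    have h2 : (2 : ℝ) ≤ k := by exact_mod_cast hk.1
    have : (1 : ℝ) / k ≤ 1 / ((k : ℝ) - 1) := by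
      apply one_div_le_one_div_of_le <;> linarith
    linarith
  have htel : ∀ N : ℕ, ∑ k ∈ Finset.Ico 2 (N + 2), ((1 : ℝ) / ((k : ℝ) - 1) - 1 / k)
      = 1 - 1 / ((N : ℝ) + 1) := by
    intro N
    induction N with
    | zero => simp
    | succ N ih =>
      rw [show N + 1 + 2 = (N + 2) + 1 by ring, Finset.sum_Ico_succ_top (by omega), ih]
      push_cast
      have h1 : (N : ℝ) + 1 ≠ 0 := by positivity
      have h2 : (N : ℝ) + 2 ≠ 0 := by positivity
      have h3 : (N : ℝ) + 2 - 1 = N + 1 := by ring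
      rw [h3]
      have h4 : (N : ℝ) + 1 + 1 = N + 2 := by ring
      rw [h4]
      ring
  calc ∑ p ∈ S, ((1 : ℝ) / ((p : ℝ) - 1) - 1 / p)
      ≤ ∑ k ∈ Finset.Ico 2 (N + 2), ((1 : ℝ) / ((k : ℝ) - 1) - 1 / k) :=
        Finset.sum_le_sum_of_subset_of_nonneg hsub (fun k hk _ => hnn k hk)
    _ = 1 - 1 / ((N : ℝ) + 1) := htel N
    _ ≤ 1 := by
        have : (0 : ℝ) < 1 / ((N : ℝ) + 1) := by positivity
        linarith

/-- `(1-1/p)^{-1} ≤ exp (1/(p-1))` -/
lemma inv_le_exp {p : ℕ} (hp : p.Prime) :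
    (1 - (p : ℝ)⁻¹)⁻¹ ≤ Real.exp (1 / ((p : ℝ) - 1)) := by
  have h1 : (1 : ℝ) < p := by exact_mod_cast hp.one_lt
  have h2 : (p : ℝ) - 1 ≠ 0 := by linarith
  have h3 : (p : ℝ) ≠ 0 := by linarith
  have e : (1 - (p : ℝ)⁻¹)⁻¹ = 1 / ((p : ℝ) - 1) + 1 := by
    field_simp
    ring
  rw [e]
  exact Real.add_one_le_exp _

/-- Mertens lower bound: `log y ≤ e * exp (∑_{p ≤ y} 1/p)` -/
lemma mertens_lower (Y : ℕ) (S : Finset ℕ) (hS : ∀ p ∈ S, p.Prime)
    (hall : ∀ p, p.Prime → p ≤ Y → p ∈ S) :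
    Real.log Y ≤ Real.exp (1 + ∑ p ∈ S, (1 : ℝ) / p) := by
  calc Real.log Y ≤ ∑ n ∈ Finset.Icc 1 Y, (n : ℝ)⁻¹ := log_le_sum Y
    _ ≤ ∏ p ∈ S, (1 - (p : ℝ)⁻¹)⁻¹ := by
        apply sum_factored S hS
        intro n hn
        rw [Finset.mem_Icc] at hn
        rw [Nat.mem_factoredNumbers]
        refine ⟨by omega, fun p hp => ?_⟩
        have hpp := Nat.prime_of_mem_primeFactorsList hp
        have hpd := Nat.dvd_of_mem_primeFactorsList hp
        exact hall p hpp (le_trans (Nat.le_of_dvd (by omega) hpd) hn.2)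
    _ ≤ ∏ p ∈ S, Real.exp (1 / ((p : ℝ) - 1)) := by
        apply Finset.prod_le_prod
        · intro p hp
          have h1 : (1 : ℝ) < p := by exact_mod_cast (hS p hp).one_lt
          have : (p : ℝ)⁻¹ < 1 := inv_lt_one_of_one_lt₀ h1
          exact inv_nonneg.2 (by linarith)
        · intro p hp
          exact inv_le_exp (hS p hp)
    _ = Real.exp (∑ p ∈ S, 1 / ((p : ℝ) - 1)) := by rw [Real.exp_sum]
    _ ≤ Real.exp (1 + ∑ p ∈ S, (1 : ℝ) / p) := by
        apply Real.exp_le_exp.2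
        have := sum_pp S hS
        rw [Finset.sum_sub_distrib] at this
        linarith

/-- the exponential of the sum of `1/p` over prime divisors of `n` is at most `n/φ(n)` -/
lemma exp_sum_dvd (n : ℕ) (hn : n ≠ 0) (S : Finset ℕ) (hS : ∀ p ∈ S, p.Prime ∧ p ∣ n) :
    Real.exp (∑ p ∈ S, (1 : ℝ) / p) ≤ (n : ℝ) / (n.totient : ℝ) := by
  have hsub : S ⊆ n.primeFactors := by
    intro p hp
    rw [Nat.mem_primeFactors]
    exact ⟨(hS p hp).1, (hS p hp).2, hn⟩
  have h1 : ∑ p ∈ S, (1 : ℝ) / p ≤ ∑ p ∈ n.primeFactors, (1 : ℝ) / p :=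
    Finset.sum_le_sum_of_subset_of_nonneg hsub (fun _ _ _ => by positivity)
  refine le_trans (Real.exp_le_exp.2 h1) ?_
  rw [Real.exp_sum]
  have htot : (n.totient : ℝ) = n * ∏ p ∈ n.primeFactors, (1 - (p : ℝ)⁻¹) := by
    have h := Nat.totient_eq_mul_prod_factors n
    have h' : (((n.totient : ℕ) : ℚ) : ℝ) = ((n * ∏ p ∈ n.primeFactors, (1 - (p : ℚ)⁻¹) : ℚ) : ℝ) := by
      rw [h]
    push_cast at h'
    exact h'
  have hpos : 0 < (n.totient : ℝ) := by
    exact_mod_cast Nat.totient_pos.2 (Nat.pos_of_ne_zero hn)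
  rw [le_div_iff₀ hpos, htot]
  have hn0 : (0 : ℝ) ≤ n := by positivity
  have hprod : (∏ p ∈ n.primeFactors, Real.exp ((1 : ℝ) / p)) *
      (∏ p ∈ n.primeFactors, (1 - (p : ℝ)⁻¹)) ≤ 1 := by
    rw [← Finset.prod_mul_distrib]
    apply Finset.prod_le_one
    · intro p hp
      have hp' := Nat.prime_of_mem_primeFactors hp
      have h1 : (1 : ℝ) < p := by exact_mod_cast hp'.one_lt
      have : (p : ℝ)⁻¹ < 1 := inv_lt_one_of_one_lt₀ h1
      exact mul_nonneg (Real.exp_nonneg _) (by linarith)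
    · intro p hp
      have h2 : 1 - (p : ℝ)⁻¹ ≤ Real.exp (-(p : ℝ)⁻¹) := by
        have := Real.add_one_le_exp (-(p : ℝ)⁻¹)
        linarith
      calc Real.exp ((1 : ℝ) / p) * (1 - (p : ℝ)⁻¹)
          ≤ Real.exp ((1 : ℝ) / p) * Real.exp (-(p : ℝ)⁻¹) := by gcongr
        _ = 1 := by rw [← Real.exp_add]; simp
  calc (∏ p ∈ n.primeFactors, Real.exp ((1 : ℝ) / p)) *
      ((n : ℝ) * ∏ p ∈ n.primeFactors, (1 - (p : ℝ)⁻¹))
      = n * ((∏ p ∈ n.primeFactors, Real.exp ((1 : ℝ) / p)) *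
      (∏ p ∈ n.primeFactors, (1 - (p : ℝ)⁻¹))) := by ring
    _ ≤ n * 1 := by gcongr
    _ = n := mul_one _

/-- CRT upper bound -/
lemma crt_count (P : Finset ℕ) (hP : ∀ p ∈ P, p.Prime) (a : ℤ) :
    ((range (∏ p ∈ P, p)).filter (fun b : ℕ => b.Coprime (∏ p ∈ P, p) ∧
      ∀ p ∈ P, ¬ (p : ℤ) ∣ (b : ℤ) - a)).card ≤
    ∏ p ∈ P, ((range p).filter (fun c : ℕ => c ≠ 0 ∧ ¬ (p : ℤ) ∣ (c : ℤ) - a)).card := by
  classical
  rw [← Finset.card_pi]
  apply Finset.card_le_card_of_injOn (fun b p _ => b % p)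
  · intro b hb
    rw [Finset.mem_coe, Finset.mem_filter] at hb
    rw [Finset.mem_coe, Finset.mem_pi]
    intro p hp
    have hpp := hP p hp
    rw [Finset.mem_filter, Finset.mem_range]
    refine ⟨Nat.mod_lt _ hpp.pos, ?_, ?_⟩
    · intro h0
      have hd : p ∣ b := Nat.dvd_of_mod_eq_zero h0
      have hd2 : p ∣ ∏ p ∈ P, p := Finset.dvd_prod_of_mem _ hp
      have := Nat.dvd_gcd hd hd2
      rw [hb.2.1] at this
      exact hpp.one_lt.ne' (Nat.dvd_one.1 this)
    · intro hd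
      apply hb.2.2 p hp
      have h1 : (p : ℤ) ∣ (b : ℤ) - ((b % p : ℕ) : ℤ) := by
        push_cast
        exact Int.dvd_self_sub_emod
      have := dvd_add h1 hd
      have e : (b : ℤ) - ((b % p : ℕ) : ℤ) + (((b % p : ℕ) : ℤ) - a) = b - a := by ring
      rwa [e] at this
  · intro b hb b' hb' heq
    rw [Finset.mem_coe, Finset.mem_filter, Finset.mem_range] at hb hb'
    have hmod : ∀ p ∈ P, b % p = b' % p := by
      intro p hp
      have := congrFun (congrFun heq p) hp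
      exact this
    have key : ∀ x y : ℕ, x ≤ y → y < ∏ p ∈ P, p → (∀ p ∈ P, x % p = y % p) → x = y := by
      intro x y hxy hy hm
      have hd : (∏ p ∈ P, p) ∣ y - x := by
        apply Finset.prod_primes_dvd
        · intro p hp
          exact (hP p hp).prime
        · intro p hp
          exact (Nat.modEq_iff_dvd' hxy).1 (hm p hp)
      by_contra hne
      have hpos : 0 < y - x := by omega
      have := Nat.le_of_dvd hpos hd
      omega
    rcases le_total b b' with h | h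
    · exact key b b' h hb'.1 hmod
    · exact (key b' b h hb.1 (fun p hp => (hmod p hp).symm)).symm

lemma local_count {p : ℕ} (hp : p.Prime) (a : ℤ) :
    (((range p).filter (fun c : ℕ => c ≠ 0 ∧ ¬ (p : ℤ) ∣ (c : ℤ) - a)).card : ℝ) ≤
    ((p : ℝ) - 1) * (if (p : ℤ) ∣ a then 1 else Real.exp (-((1 : ℝ) / p))) := by
  classical
  have h1 : (1 : ℝ) < p := by exact_mod_cast hp.one_lt
  have hc0 : (((range p).filter (fun c : ℕ => c ≠ 0)).card : ℝ) = (p : ℝ) - 1 := by
    have : (range p).filter (fun c : ℕ => c ≠ 0) = (range p).erase 0 := by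
      ext c; simp [and_comm]
    rw [this, Finset.card_erase_of_mem (Finset.mem_range.2 hp.pos), Finset.card_range,
      Nat.cast_sub hp.one_lt.le]
    simp
  split_ifs with hpa
  · rw [mul_one, ← hc0]
    have hle : ((range p).filter (fun c : ℕ => c ≠ 0 ∧ ¬ (p : ℤ) ∣ (c : ℤ) - a)).card ≤
        ((range p).filter (fun c : ℕ => c ≠ 0)).card := by
      apply Finset.card_le_card
      intro c hc
      rw [Finset.mem_filter] at hc ⊢
      exact ⟨hc.1, hc.2.1⟩
    exact_mod_cast hle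
  · -- the class of a is a nonzero class
    set r : ℕ := (a % p).toNat with hr
    have hp0 : (0 : ℤ) < p := by exact_mod_cast hp.pos
    have hr1 : (r : ℤ) = a % p := Int.toNat_of_nonneg (Int.emod_nonneg _ hp0.ne')
    have hrlt : r < p := by
      have := Int.emod_lt_of_pos a hp0
      omega
    have hr0 : r ≠ 0 := by
      intro h0
      apply hpa
      apply Int.dvd_of_emod_eq_zero
      rw [← hr1, h0]; rfl
    have hsub : (range p).filter (fun c : ℕ => c ≠ 0 ∧ ¬ (p : ℤ) ∣ (c : ℤ) - a) ⊆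
        ((range p).filter (fun c : ℕ => c ≠ 0)).erase r := by
      intro c hc
      rw [Finset.mem_filter] at hc
      rw [Finset.mem_erase, Finset.mem_filter]
      refine ⟨?_, hc.1, hc.2.1⟩
      intro hcr
      apply hc.2.2
      rw [hcr, hr1]
      have h0 : (p : ℤ) ∣ a - a % p := Int.dvd_self_sub_emod
      have h2 := dvd_neg.2 h0
      have e : -(a - a % p) = a % p - a := by ring
      rwa [e] at h2
    have hcard := Finset.card_le_card hsub
    rw [Finset.card_erase_of_mem (by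
      rw [Finset.mem_filter, Finset.mem_range]; exact ⟨hrlt, hr0⟩)] at hcard
    have hpos : 1 ≤ ((range p).filter (fun c : ℕ => c ≠ 0)).card := by
      apply Finset.card_pos.2
      exact ⟨r, by rw [Finset.mem_filter, Finset.mem_range]; exact ⟨hrlt, hr0⟩⟩
    have hcard' : (((range p).filter (fun c : ℕ => c ≠ 0 ∧ ¬ (p : ℤ) ∣ (c : ℤ) - a)).card : ℝ) ≤
        (p : ℝ) - 1 - 1 := by
      have : (((range p).filter (fun c : ℕ => c ≠ 0 ∧ ¬ (p : ℤ) ∣ (c : ℤ) - a)).card : ℝ) ≤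
        ((((range p).filter (fun c : ℕ => c ≠ 0)).card - 1 : ℕ) : ℝ) := by exact_mod_cast hcard
      rw [Nat.cast_sub hpos, hc0] at this
      simpa using this
    refine hcard'.trans ?_
    have h2 : 1 - (1 : ℝ) / p ≤ Real.exp (-((1 : ℝ) / p)) := by
      have := Real.add_one_le_exp (-((1 : ℝ) / p))
      linarith
    calc (p : ℝ) - 1 - 1 ≤ ((p : ℝ) - 1) * (1 - 1 / p) := by
          have : ((p : ℝ) - 1) * (1 - 1 / p) = (p : ℝ) - 1 - 1 + 1 / p := by
            field_simp; ring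
          rw [this]
          have : (0 : ℝ) < 1 / p := by positivity
          linarith
      _ ≤ ((p : ℝ) - 1) * Real.exp (-((1 : ℝ) / p)) := by
          apply mul_le_mul_of_nonneg_left h2
          linarith

lemma totient_prod_primes (P : Finset ℕ) (hP : ∀ p ∈ P, p.Prime) :
    ((∏ p ∈ P, p).totient : ℝ) = ∏ p ∈ P, ((p : ℝ) - 1) := by
  classical
  induction P using Finset.induction_on with
  | empty => simp
  | insert q P hq ih =>
    rw [Finset.prod_insert hq, Finset.prod_insert hq]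
    have hqp := hP q (Finset.mem_insert_self _ _)
    have hP' : ∀ p ∈ P, p.Prime := fun p hp => hP p (Finset.mem_insert_of_mem hp)
    rw [Nat.totient_mul, Nat.cast_mul, ih hP', Nat.totient_prime hqp, Nat.cast_sub hqp.one_lt.le]
    · simp
    · apply Nat.Coprime.prod_right
      intro p hp
      rw [Nat.coprime_primes hqp (hP' p hp)]
      rintro rfl
      exact hq hp

theorem avgB : Pool.Agent.H410R2.EN.AvgB := by
  classical
  refine ⟨Real.exp 9, Real.exp (Real.exp 1), by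
    rw [← Real.exp_zero]; exact Real.exp_le_exp.2 (by norm_num), ?_⟩
  intro X hX ps S hps hS a ha
  have hP : ∀ p ∈ PW X S ps, p.Prime := by
    intro p hp
    unfold PW at hp
    exact (Finset.mem_filter.1 hp).2.1
  set P := PW X S ps with hPdef
  set Y := yy X with hY
  have hlog1 : Real.exp 1 ≤ Real.log X := by
    rw [← Real.log_exp (Real.exp 1)]
    exact Real.log_le_log (Real.exp_pos _) hX
  have hlog2 : 1 ≤ Real.log (Real.log X) := by
    rw [← Real.log_exp 1]
    exact Real.log_le_log (Real.exp_pos _) hlog1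
  -- sum over all primes ≤ Y
  have hsumS : ∑ q ∈ S, (1 : ℝ) / q ≤ 6 := by
    refine hS.2.trans ?_
    rw [div_le_iff₀ (by positivity)]
    nlinarith
  set A := (Icc 1 Y).filter (fun p => p.Prime) with hA
  have hAsum : ∑ p ∈ A, (1 : ℝ) / p ≤ ∑ p ∈ P, (1 : ℝ) / p + 7 := by
    have hsub : A ⊆ P ∪ (S ∪ {ps}) := by
      intro p hp
      rw [hA, Finset.mem_filter] at hp
      by_cases h1 : p ∈ S
      · simp [h1]
      by_cases h2 : p = ps
      · simp [h2]
      rw [Finset.mem_union]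
      left
      rw [hPdef]
      unfold PW
      rw [Finset.mem_filter]
      exact ⟨hp.1, hp.2, h1, h2⟩
    have hnn : ∀ p : ℕ, (0 : ℝ) ≤ 1 / (p : ℝ) := fun p => by positivity
    calc ∑ p ∈ A, (1 : ℝ) / p ≤ ∑ p ∈ P ∪ (S ∪ {ps}), (1 : ℝ) / p :=
          Finset.sum_le_sum_of_subset_of_nonneg hsub (fun p _ _ => hnn p)
      _ ≤ ∑ p ∈ P, (1 : ℝ) / p + ∑ p ∈ S ∪ {ps}, (1 : ℝ) / p := by
          rw [← Finset.sum_union_inter]
          have : 0 ≤ ∑ p ∈ P ∩ (S ∪ {ps}), (1 : ℝ) / p := Finset.sum_nonneg (fun p _ => hnn p)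
          linarith
      _ ≤ ∑ p ∈ P, (1 : ℝ) / p + (∑ p ∈ S, (1 : ℝ) / p + ∑ p ∈ ({ps} : Finset ℕ), (1 : ℝ) / p) := by
          have e := Finset.sum_union_inter (s₁ := S) (s₂ := {ps}) (f := fun p : ℕ => (1 : ℝ) / p)
          have : 0 ≤ ∑ p ∈ S ∩ {ps}, (1 : ℝ) / p := Finset.sum_nonneg (fun p _ => hnn p)
          linarith
      _ ≤ ∑ p ∈ P, (1 : ℝ) / p + 7 := by
          rw [Finset.sum_singleton]
          have hps1 : (1 : ℝ) / ps ≤ 1 := by
            rcases hps with h | h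
            · rw [h]; simp
            · have : (1 : ℝ) ≤ ps := by exact_mod_cast h.1.one_lt.le
              rw [div_le_iff₀ (by linarith)]
              linarith
          linarith
  have hmert : Real.log Y ≤ Real.exp (8 + ∑ p ∈ P, (1 : ℝ) / p) := by
    refine (mertens_lower Y A (fun p hp => (Finset.mem_filter.1 hp).2) ?_).trans ?_
    · intro p hp hpY
      rw [hA, Finset.mem_filter, Finset.mem_Icc]
      exact ⟨⟨hp.one_lt.le, hpY⟩, hp⟩
    · apply Real.exp_le_exp.2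
      linarith
  -- the count
  have hcount : (((range (WW X S ps)).filter (fun b : ℕ => b.Coprime (WW X S ps) ∧
      ∀ p ∈ P, ¬ (p : ℤ) ∣ (b : ℤ) - a)).card : ℝ) ≤
      (WW X S ps).totient * Real.exp (-∑ p ∈ P.filter (fun p : ℕ => ¬ (p : ℤ) ∣ a), (1 : ℝ) / p) := by
    have h1 := crt_count P hP a
    have h2 : (((range (WW X S ps)).filter (fun b : ℕ => b.Coprime (WW X S ps) ∧
      ∀ p ∈ P, ¬ (p : ℤ) ∣ (b : ℤ) - a)).card : ℝ) ≤
      ((∏ p ∈ P, ((range p).filter (fun c : ℕ => c ≠ 0 ∧ ¬ (p : ℤ) ∣ (c : ℤ) - a)).card : ℕ) : ℝ) := by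
      exact_mod_cast h1
    refine h2.trans ?_
    rw [Nat.cast_prod]
    calc ∏ p ∈ P, (((range p).filter (fun c : ℕ => c ≠ 0 ∧ ¬ (p : ℤ) ∣ (c : ℤ) - a)).card : ℝ)
        ≤ ∏ p ∈ P, (((p : ℝ) - 1) * (if (p : ℤ) ∣ a then 1 else Real.exp (-((1 : ℝ) / p)))) :=
          Finset.prod_le_prod (fun p _ => by positivity) (fun p hp => local_count (hP p hp) a)
      _ = (∏ p ∈ P, ((p : ℝ) - 1)) *
            ∏ p ∈ P, (if (p : ℤ) ∣ a then 1 else Real.exp (-((1 : ℝ) / p))) :=
          Finset.prod_mul_distrib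
      _ = (WW X S ps).totient *
            ∏ p ∈ P, (if (p : ℤ) ∣ a then 1 else Real.exp (-((1 : ℝ) / p))) := by
          rw [← totient_prod_primes P hP]; rfl
      _ = _ := by
          congr 1
          rw [← Finset.sum_neg_distrib, Real.exp_sum, Finset.prod_filter]
          refine Finset.prod_congr rfl fun p _ => ?_
          split_ifs <;> simp_all
  -- split the sum
  have hsplit : ∑ p ∈ P.filter (fun p : ℕ => ¬ (p : ℤ) ∣ a), (1 : ℝ) / p =
      ∑ p ∈ P, (1 : ℝ) / p - ∑ p ∈ P.filter (fun p : ℕ => (p : ℤ) ∣ a), (1 : ℝ) / p := by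
    have := Finset.sum_filter_add_sum_filter_not P (fun p : ℕ => (p : ℤ) ∣ a)
      (fun p => (1 : ℝ) / p)
    linarith
  have hdvd : Real.exp (∑ p ∈ P.filter (fun p : ℕ => (p : ℤ) ∣ a), (1 : ℝ) / p) ≤
      (a.natAbs : ℝ) / (a.natAbs.totient : ℝ) := by
    apply exp_sum_dvd _ (Int.natAbs_ne_zero.2 ha)
    intro p hp
    rw [Finset.mem_filter] at hp
    exact ⟨hP p hp.1, Int.natCast_dvd.1 hp.2⟩
  have hlogY : 0 ≤ Real.log Y := Real.log_natCast_nonneg _
  have hphi : (0 : ℝ) ≤ (WW X S ps).totient := by positivity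
  set s1 := ∑ p ∈ P, (1 : ℝ) / p with hs1
  set s2 := ∑ p ∈ P.filter (fun p : ℕ => (p : ℤ) ∣ a), (1 : ℝ) / p with hs2
  calc (((range (WW X S ps)).filter (fun b : ℕ => b.Coprime (WW X S ps) ∧
      ∀ p ∈ P, ¬ (p : ℤ) ∣ (b : ℤ) - a)).card : ℝ) * Real.log Y
      ≤ ((WW X S ps).totient * Real.exp (-(s1 - s2))) * Real.exp (8 + s1) := by
        rw [hsplit] at hcount
        exact mul_le_mul hcount hmert hlogY (by positivity)
    _ = (WW X S ps).totient * (Real.exp 8 * Real.exp s2) := by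
        rw [mul_assoc, ← Real.exp_add, ← Real.exp_add]
        congr 2
        ring
    _ ≤ (WW X S ps).totient * (Real.exp 9 * ((a.natAbs : ℝ) / (a.natAbs.totient : ℝ))) := by
        have h89 : Real.exp 8 ≤ Real.exp 9 := Real.exp_le_exp.2 (by norm_num)
        have : Real.exp 8 * Real.exp s2 ≤ Real.exp 9 * ((a.natAbs : ℝ) / (a.natAbs.totient : ℝ)) :=
          mul_le_mul h89 hdvd (Real.exp_nonneg _) (Real.exp_nonneg _)
        exact mul_le_mul_of_nonneg_left this hphi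
    _ = Real.exp 9 * (WW X S ps).totient * ((a.natAbs : ℝ) / (a.natAbs.totient : ℝ)) := by ring

end Pool.Agent.H414R2.ENAvg
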